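import Pool.Agent.Helper63.ST.Defs

/-!
MP_82cbb9_al, module ST-7: a finitely generated group has finitely many subgroups of bounded index.
-/

set_option autoImplicit false

namespace Pool.Agent.ST

theorem finite_hom_perm (G : Type) [Group G] [Group.FG G] (m : ℕ) :
    Finite (G →* Equiv.Perm (Fin m)) := by
  obtain ⟨S, hS⟩ := (Group.fg_def.1 (inferInstance : Group.FG G))
  have hinj : Function.Injective
      (fun (φ : G →* Equiv.Perm (Fin m)) (s : S) => φ s) := by
    intro φ ψ h
    apply MonoidHom.eq_of_eqOn_dense hS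
    intro x hx
    exact congrFun h ⟨x, hx⟩
  exact Finite.of_injective _ hinj

/-- ST-7: a finitely generated group has finitely many subgroups of index `≤ n` -/
theorem exists_le_of_index_le (G : Type) [Group G] [Group.FG G] (n : ℕ) :
    ∃ H : Subgroup G, H.Normal ∧ H.FiniteIndex ∧
      ∀ K : Subgroup G, K.index ≠ 0 → K.index ≤ n → H ≤ K := by
  classical
  have : ∀ m : ℕ, Finite (G →* Equiv.Perm (Fin m)) := finite_hom_perm G
  let ι := Σ m : Fin (n + 1), (G →* Equiv.Perm (Fin m))
  have : Finite ι := inferInstance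
  refine ⟨⨅ i : ι, i.2.ker, ?_, ?_, ?_⟩
  · exact Subgroup.normal_iInf_normal fun i => inferInstance
  · apply Subgroup.finiteIndex_iInf
    intro i
    infer_instance
  · intro K hK0 hKn
    have hcard : Nat.card (G ⧸ K) = K.index := rfl
    have : Finite (G ⧸ K) := Nat.finite_of_card_ne_zero hK0
    let e : (G ⧸ K) ≃ Fin K.index := Finite.equivFinOfCardEq hcard
    let φ : G →* Equiv.Perm (Fin K.index) :=
      (e.permCongrHom.toMonoidHom).comp (MulAction.toPermHom G (G ⧸ K))
    have hlt : K.index < n + 1 := Nat.lt_succ_of_le hKn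
    intro g hg
    have h1 : g ∈ φ.ker := by
      have := (Subgroup.mem_iInf.1 hg) ⟨⟨K.index, hlt⟩, φ⟩
      exact this
    have h2 : MulAction.toPermHom G (G ⧸ K) g = 1 := by
      have h3 : e.permCongrHom (MulAction.toPermHom G (G ⧸ K) g) = 1 := h1
      exact (MulEquiv.map_eq_one_iff _).1 h3
    have h4 : g • ((1 : G) : G ⧸ K) = ((1 : G) : G ⧸ K) := by
      have := congrArg (fun σ : Equiv.Perm (G ⧸ K) => σ ((1 : G) : G ⧸ K)) h2
      simpa using this
    have h5 : ((g * 1 : G) : G ⧸ K) = ((1 : G) : G ⧸ K) := h4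
    rw [mul_one] at h5
    rw [QuotientGroup.eq] at h5
    simpa using h5

end Pool.Agent.ST
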