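import Pool.Agent.Helper63.ST.Defs
import Pool.Agent.Helper29.CP.Defs

/-!
MP_82cbb9_al, module ST-15: the free abelian quotient of a subgroup of finite index.
-/

set_option autoImplicit false

namespace Pool.Agent.ST

open Module

/-- ST-15 -/
theorem exists_tau {H : Type} [Group H] [Group.FG H] :
    ∃ (G0 : Subgroup H) (_ : G0.FiniteIndex) (k : ℕ) (τ : G0 →* CP.TT k),
      Function.Surjective τ ∧ τ.ker = (commutator H).subgroupOf G0 := by
  classical
  have hfg : Group.FG (Abelianization H) :=
    Group.fg_of_surjective (f := (Abelianization.of : H →* Abelianization H))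
      QuotientGroup.mk_surjective
  have hfg' : AddGroup.FG (Additive (Abelianization H)) := inferInstance
  obtain ⟨n, ι, hι, p, hp, e, ⟨E⟩⟩ :=
    AddCommGroup.equiv_free_prod_directSum_zmod (Additive (Abelianization H))
  let F := DirectSum ι fun i => ZMod (p i ^ e i)
  have hF : Finite F := by
    have : ∀ i, NeZero (p i ^ e i) := fun i => ⟨pow_ne_zero _ (hp i).ne_zero⟩
    exact Finite.of_equiv _ (DirectSum.addEquivProd (fun i => ZMod (p i ^ e i))).toEquiv.symm
  let a : H →* Multiplicative (Additive (Abelianization H)) :=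
    { toFun := fun h => Multiplicative.ofAdd (Additive.ofMul (Abelianization.of h))
      map_one' := rfl
      map_mul' := fun x y => rfl }
  let q : H →* Multiplicative ((Fin n →₀ ℤ) × F) :=
    (AddMonoidHom.toMultiplicative E.toAddMonoidHom).comp a
  have hq : Function.Surjective q := by
    intro y
    obtain ⟨x, hx⟩ := E.surjective (Multiplicative.toAdd y)
    obtain ⟨h, hh⟩ := QuotientGroup.mk_surjective (Additive.toMul x)
    refine ⟨h, ?_⟩
    have hh' : Additive.ofMul (Abelianization.of h) = x := congrArg Additive.ofMul hh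
    have : E (Additive.ofMul (Abelianization.of h)) = Multiplicative.toAdd y := by
      rw [← hx, hh']
    exact congrArg Multiplicative.ofAdd this
  have hqk : ∀ h, q h = 1 → h ∈ commutator H := by
    intro h hh
    have h1 : E (Additive.ofMul (Abelianization.of h)) = 0 := hh
    have h2 : Additive.ofMul (Abelianization.of h) = 0 := (map_eq_zero_iff E E.injective).1 h1
    have h3 : Abelianization.of h = 1 := h2
    rwa [← MonoidHom.mem_ker, Abelianization.ker_of] at h3
  have hqk' : ∀ h ∈ commutator H, q h = 1 := by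
    intro h hh
    have h3 : Abelianization.of h = 1 := by
      rwa [← MonoidHom.mem_ker, Abelianization.ker_of]
    have h1 : E (Additive.ofMul (Abelianization.of h)) = 0 := by
      rw [h3]
      exact map_zero E
    exact h1
  let q2 : H →* Multiplicative F :=
    (AddMonoidHom.toMultiplicative (AddMonoidHom.snd (Fin n →₀ ℤ) F)).comp q
  let q1 : H →* Multiplicative (Fin n → ℤ) :=
    (AddMonoidHom.toMultiplicative
      ((Finsupp.linearEquivFunOnFinite ℤ ℤ (Fin n)).toAddEquiv.toAddMonoidHom.comp
        (AddMonoidHom.fst (Fin n →₀ ℤ) F))).comp q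
  have hfin : q2.ker.FiniteIndex := by
    have : Finite (Multiplicative F) := hF
    infer_instance
  refine ⟨q2.ker, hfin, n, q1.comp q2.ker.subtype, ?_, ?_⟩
  · intro v
    obtain ⟨h, hh⟩ := hq (Multiplicative.ofAdd
      ((Finsupp.linearEquivFunOnFinite ℤ ℤ (Fin n)).symm (Multiplicative.toAdd v), (0 : F)))
    refine ⟨⟨h, ?_⟩, ?_⟩
    · rw [MonoidHom.mem_ker]
      change (AddMonoidHom.toMultiplicative (AddMonoidHom.snd (Fin n →₀ ℤ) F)) (q h) = 1
      rw [hh]
      rfl
    · change (AddMonoidHom.toMultiplicative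
        ((Finsupp.linearEquivFunOnFinite ℤ ℤ (Fin n)).toAddEquiv.toAddMonoidHom.comp
        (AddMonoidHom.fst (Fin n →₀ ℤ) F))) (q h) = v
      rw [hh]
      rfl
  · ext ⟨h, hh⟩
    rw [MonoidHom.mem_ker, Subgroup.mem_subgroupOf]
    constructor
    · intro h1
      apply hqk
      have e1 : (Multiplicative.toAdd (q h)).1 = 0 := by
        have h2 : (Finsupp.linearEquivFunOnFinite ℤ ℤ (Fin n))
          ((Multiplicative.toAdd (q h)).1) = 0 := h1
        exact (map_eq_zero_iff _ (LinearEquiv.injective _)).1 h2
      have e2 : (Multiplicative.toAdd (q h)).2 = 0 := hh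
      exact congrArg Multiplicative.ofAdd (Prod.ext e1 e2)
    · intro h1
      have h2 : q h = 1 := hqk' h h1
      change (AddMonoidHom.toMultiplicative
        ((Finsupp.linearEquivFunOnFinite ℤ ℤ (Fin n)).toAddEquiv.toAddMonoidHom.comp
        (AddMonoidHom.fst (Fin n →₀ ℤ) F))) (q h) = 1
      rw [h2, map_one]

end Pool.Agent.ST
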